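import Pool.Agent.W574.HS.LocalForm

set_option autoImplicit false

/-! # The local strong monodromy conjecture for the germs `∑ y_j f_j(x₁, x₂) = 0`

Here the `f_j` are arbitrary polynomials in the two variables `x₁, x₂`, and `y_j` are further
variables: `F = univ f = ∑ y_j f_j(x₁, x₂)`, a germ at the origin. The local topological zeta
function of `F` is `Z_{I, 0} / (s + 1)`, where `Z_{I, 0}` is the local topological zeta function of
the ideal `I = (f_j)`, computed by blowing up points of the plane; see `LocalFormZeta` (in
`Pool.Agent.W574.HS.LocalForm`) and `LocalZeta` (in `Pool.Agent.W574.SM.ZetaDefs`).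

The proof:

* `algebraic_of_local`: a functional equation of `F` with operators whose coefficients are formal
  power series gives a functional equation `H b(s) F ^ s = P(s) F ^ (s + 1)` with operators in the
  Weyl algebra and a polynomial `H` with `H(0) ≠ 0` (Krull's intersection theorem);
* `locEq_of_univ`: it gives a local functional equation of the ideal `(f_j)` with the same `b`
  (a local version of one direction of a theorem of Mustata, 2019);
* `point_main`: the poles of `Z_{I, 0}` are roots of `b`;
* `minus_one`: `b(-1) = 0`. -/

namespace Pool.Agent.Results.MP_6163c8_ag.PlaneFormsLocal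

open MvPolynomial Pool.Agent.W574.HS Pool.Agent.H628R4.TP

/-- **The local strong monodromy conjecture holds for the germs `F = ∑ y_j f_j(x₁, x₂)` at the
origin.** Let `f_j` be polynomials in two variables, not all zero, let `b` be a polynomial which
satisfies a functional equation `b(s) F ^ s = P(s) F ^ (s + 1)`, where `P(s)` is a differential
operator with formal power series coefficients (in particular the local Bernstein-Sato polynomial
of `F`), and let `Z` be the local topological zeta function of `F` at the origin. Then every pole
of `Z` is a root of `b`. -/
theorem result {ι : Type} [Fintype ι] (f : ι → MvPolynomial (Fin 2) ℂ) (hf : ∃ j, f j ≠ 0)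
    (b : Polynomial ℂ) (hb : IsLocalBFunction (univ f) b) (Z : RatFunc ℂ)
    (hZ : LocalFormZeta f Z) (s₀ : ℂ) (hs₀ : Z.denom.eval s₀ = 0) : b.eval s₀ = 0 := by
  classical
  exact local_form_main f hf b hb Z hZ s₀ hs₀

end Pool.Agent.Results.MP_6163c8_ag.PlaneFormsLocal
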