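import Mathlib
import Pool.Agent.W425.SH.Final

/-!
# The local strong monodromy conjecture for sparse polynomials plus higher order terms

Let `f = ∑_j a_j x ^ (v j) + h` be a germ at the origin (`r ≥ 1` terms in the first sum, all
`a_j ≠ 0`, all `v j ≠ 0`) where the exponents `v j` are affinely independent and either `h = 0`, or
`h` is a polynomial of higher order: there is a weight `ρ` (a linear functional, with real values of
any signs) with `ρ(v j) = 1` for all `j` and `ρ(w) > 1` for all the exponents `w` of `h`, and all
the `w` lie in the Newton polyhedron of the `v j`, but not on its compact faces. Then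
`b_{f,0}(s) Z_{f,0}(s)` is a polynomial in `s`, where `b_{f,0}` is the local Bernstein-Sato
polynomial and `Z_{f,0}` is the local topological zeta function of `f` at the origin; in particular
every pole of `Z_{f,0}` is a root of `b_{f,0}`, of at least the same order.
-/

set_option autoImplicit false

namespace Pool.Agent.Results.MP_6163c8_ag.SparseHigherOrder

open Polynomial Pool.Agent.H628R4.TZ Pool.Agent.W425.SM Pool.Agent.W425.SH

/-- **The local strong monodromy conjecture, with multiplicities, for the germs at the origin of
`f = ∑_j a_j x ^ (v j) + h`.**

`IsLocalBFunction (sparse v a + h) b` says that `b(s) f ^ s = P(s) f ^ (s + 1)` for a differential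
operator `P(s)` with formal power series coefficients at the origin; the local Bernstein-Sato
polynomial `b_{f,0}` is one of these polynomials `b`. `Higher v h` is the condition with the weight
`ρ`; `Above v h` says that the exponents of `h` lie in the Newton polyhedron of the `v j` and not
on its compact faces. `R` is any smooth fan with support the positive orthant on which the ideal
`(x ^ (v j))_j` becomes principal, and `topZetaSparseLocal v R` is the local topological zeta
function of `f` at the origin, computed on the embedded resolution `X_R`: the sum over the torus
orbits which lie over the origin, that is, over the cones whose relative interior lies in the open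
orthant (on such an orbit the strict transform of `f = 0` is given by the terms `a_j x ^ (v j)`
with `j ∈ minSet v σ`). -/
theorem result {r N : ℕ} (hr : 1 ≤ r) (v : Fin r → Fin N → ℕ) (a : Fin r → ℂ)
    (h : MvPolynomial (Fin N) ℂ)
    (hv : AffineIndependent ℚ (fun j => (fun i => (v j i : ℚ) : Fin N → ℚ)))
    (hv0 : ∀ j, v j ≠ 0) (ha : ∀ j, a j ≠ 0) (h1 : h = 0 ∨ Higher v h) (h2 : Above v h)
    (R : SmoothFan N) (hR : Principal v R)
    (b : ℂ[X]) (hb : Pool.Agent.H628R4.TP.IsLocalBFunction (sparse v a + h) b) :
    ∃ P : ℂ[X], algebraMap ℂ[X] (RatFunc ℂ) b * Pool.Agent.W425.SL.topZetaSparseLocal v R =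
      algebraMap ℂ[X] (RatFunc ℂ) P :=
  Pool.Agent.W425.SH.final' hr v a h hv hv0 ha h1 h2 R hR b hb

end Pool.Agent.Results.MP_6163c8_ag.SparseHigherOrder
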